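import Mathlib

namespace Pool.Agent.Results.MP_c5ead3_nt.Almost

open Finset Pointwise

lemma image_le (s : Finset (ℕ × ℕ)) (f : ℕ × ℕ → ℕ) : ∑ x ∈ s.image f, x ≤ ∑ a ∈ s, f a := by
  induction s using Finset.induction_on with
  | empty => simp
  | insert a s ha ih =>
    rw [Finset.image_insert, Finset.sum_insert ha]
    by_cases h : f a ∈ s.image f
    · rw [Finset.insert_eq_of_mem h]
      omega
    · rw [Finset.sum_insert h]
      omega

lemma sub_mul (k n : ℕ) :
    ∑ d ∈ (k * n).divisors, d ≤ (∑ d ∈ k.divisors, d) * ∑ d ∈ n.divisors, d := by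
  rw [Nat.divisors_mul, Finset.mul_def, Finset.sum_mul_sum, ← Finset.sum_product']
  exact image_le _ _

lemma sig_two (m : ℕ) : ∑ d ∈ (2 ^ m).divisors, d + 1 = 2 * 2 ^ m := by
  rw [Nat.sum_divisors_prime_pow Nat.prime_two]
  induction m with
  | zero => simp
  | succ m ih =>
    rw [Finset.sum_range_succ, pow_succ]
    omega

theorem result : ∀ n k : ℕ, Odd n →
    IsLeast {k : ℕ | 1 ≤ k ∧ ∑ d ∈ k.divisors, d < 2 * k ∧
      2 * (k * n) ≤ ∑ d ∈ (k * n).divisors, d} k →
    ∑ d ∈ k.divisors, d + 1 = 2 * k := by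
  rintro n k hn ⟨⟨h1, h2, h3⟩, hmin⟩
  have a1 : 2 ^ Nat.log 2 k ≤ k := Nat.pow_log_le_self 2 (by omega)
  have a2 : k < 2 ^ (Nat.log 2 k + 1) := Nat.lt_pow_succ_log_self (by norm_num) k
  generalize Nat.log 2 k = m at a1 a2
  have hs := sig_two m
  rcases a1.eq_or_lt with h | h
  · rw [← h]
    exact hs
  · by_contra hc
    have hp : 1 ≤ 2 ^ m := Nat.one_le_two_pow
    have h4 : ∑ d ∈ (2 ^ m * n).divisors, d < 2 * (2 ^ m * n) := by
      by_contra h4
      have := hmin (a := 2 ^ m) ⟨hp, by omega, by omega⟩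
      omega
    have hcop : Nat.Coprime (2 ^ m) n :=
      Nat.Coprime.pow_left _ ((Nat.coprime_two_left).2 hn)
    rw [hcop.sum_divisors_mul] at h4
    have h5 := h3.trans (sub_mul k n)
    rw [pow_succ] at a2
    generalize ∑ d ∈ (2 ^ m).divisors, d = A at *
    generalize ∑ d ∈ k.divisors, d = B at *
    generalize ∑ d ∈ n.divisors, d = C at *
    generalize 2 ^ m = T at *
    obtain ⟨j, rfl⟩ : ∃ j, k = j + 1 := ⟨k - 1, by omega⟩
    have h6 : B ≤ 2 * j := by omega
    have h7 : (j + 1) * n ≤ j * C := by nlinarith [Nat.mul_le_mul_right C h6]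
    have h8 : A * C < (A + 1) * n := by rw [hs]; linarith
    have h9 : j ≤ A := by omega
    have h10 : n < C ∨ C ≤ n := by omega
    rcases h10 with h10 | h10
    · obtain ⟨e, rfl⟩ : ∃ e, C = n + e := ⟨C - n, by omega⟩
      have b1 : n ≤ j * e := by nlinarith
      have b2 : A * e < n := by nlinarith
      nlinarith [Nat.mul_le_mul_right e h9]
    · have b0 : 0 < n := hn.pos
      nlinarith [Nat.mul_le_mul_left j h10]

end Pool.Agent.Results.MP_c5ead3_nt.Almost
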